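import Pool.Agent.Lib.MP_aafd8a_gt.Crd
import Pool.Agent.Lib.MP_aafd8a_gt.Cont
import Pool.Agent.Lib.MP_aafd8a_gt.Cpt
import Pool.Agent.Lib.MP_aafd8a_gt.Hom
import Pool.Agent.Lib.MP_aafd8a_gt.Mk
import Pool.Agent.Lib.MP_aafd8a_gt.Kuhn
import Pool.Agent.Lib.MP_aafd8a_gt.App
import Pool.Agent.Lib.MP_aafd8a_gt.Lay
import Pool.Agent.Lib.MP_aafd8a_gt.Gen
import Pool.Agent.Lib.MP_aafd8a_gt.Mar
import Pool.Agent.Lib.MP_aafd8a_gt.Pth
import Pool.Agent.Lib.MP_aafd8a_gt.Net
import Pool.Agent.Lib.MP_aafd8a_gt.Sec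
import Pool.Agent.Lib.MP_aafd8a_gt.Vp
import Pool.Agent.Lib.MP_aafd8a_gt.Start
import Pool.Agent.Lib.MP_aafd8a_gt.Move
import Pool.Agent.Lib.MP_aafd8a_gt.Cube
import Pool.Agent.Lib.MP_aafd8a_gt.Face
import Pool.Agent.Lib.MP_aafd8a_gt.Cov
import Pool.Agent.Lib.MP_aafd8a_gt.Main

/-!
# Problem MP_aafd8a_gt: a lower bound for the connectivity of the Cech complexes of spheres

For every `n ≥ 1` and every `r` with `π / 2 < r < π` the Cech complex of the open balls of radius `r` of the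
`n`-sphere is `(N + n - 2)`-connected and `2 n`-connected, where `N` is the least number of closed balls of radius `π - r`
which cover the sphere (the second statement follows from `N ≥ n + 2`).
-/

set_option autoImplicit false

namespace Pool.Agent.Results.MP_aafd8a_gt.CoverBound

open Pool.Agent.MPaafd8a

theorem result (n : ℕ) (hn : 1 ≤ n) (r : ℝ) (h0 : 0 < r) (h1 : Real.pi / 2 < r) (h2 : r < Real.pi) :
    ConnAtLeast (max (2 * (n : ℤ)) ((covNum n (Real.pi - r) : ℤ) + n - 2)) (Geo (cech n r h0)) := by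
  have hHom := pHom pCrd pCon pCpt
  have hMk := pMk pCon
  have hSt := pStart hHom hMk (pApp pCrd pKuhn) pNet (pSec pLay pGen) pVp
  have hMv := pMove hHom hMk pPth
  obtain ⟨hc, hcon⟩ := pMain hSt hMv pCube pFace pCov pMar n r h0 hn h1 h2
  refine ⟨hcon.1, fun i hi => hcon.2 i ?_⟩
  refine hi.trans (max_le ?_ le_rfl)
  omega

end Pool.Agent.Results.MP_aafd8a_gt.CoverBound
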