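import Pool.Agent.Lib.MP_aafd8a_gt.Face
import Pool.Agent.Lib.MP_aafd8a_gt.Cube
import Pool.Agent.Lib.MP_aafd8a_gt_D.AllA1
import Pool.Agent.Lib.MP_aafd8a_gt_D.A
import Pool.Agent.Lib.MP_aafd8a_gt_D.Neg
import Pool.Agent.Lib.MP_aafd8a_gt_A2.All
import Pool.Agent.Lib.MP_aafd8a_gt.B.AllB

/-!
# Problem MP_aafd8a_gt, Q1: the connectivity of the Cech complexes of spheres is not monotone

For `n = 3` there are radii `0 < r < r' < π` with `conn (Cech (S^3; r')) < 15 ≤ conn (Cech (S^3; r))`.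
-/

set_option autoImplicit false

namespace Pool.Agent.Results.MP_aafd8a_gt.Disproof

open Pool.Agent.MPaafd8a

theorem result : ∃ (r r' : ℝ) (h : 0 < r) (h' : 0 < r'), r < r' ∧ r' < Real.pi ∧
    conn (Geo (cech 3 r' h')) < 15 ∧ 15 ≤ conn (Geo (cech 3 r h)) := by
  obtain ⟨ε₀, hε, hA⟩ : SA := pA allA1 A2.allA2 pCube
  have hB : SB := Pool.Agent.MPaafd8aB.pB
  have hs : (4 / 3 : ℝ) < Real.sqrt 2 := Real.lt_sqrt_of_sq_lt (by norm_num)
  have hs0 : 0 < Real.sqrt 2 := by positivity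
  have hcst : 1 / 4 < cst := by
    unfold cst
    have : 1 / Real.sqrt 2 < 3 / 4 := by
      rw [div_lt_iff₀ hs0]
      linarith
    linarith
  have hcst1 : cst < 1 := by
    unfold cst
    have : 0 < 1 / Real.sqrt 2 := by positivity
    linarith
  obtain ⟨cA, a1, a2, a3⟩ : ∃ cA : ℝ, 1 / 4 < cA ∧ cA < 1 / 4 + ε₀ ∧ cA < cst := by
    refine ⟨min (1 / 4 + ε₀ / 2) ((1 / 4 + cst) / 2), ?_, ?_, ?_⟩
    · exact lt_min (by linarith) (by linarith)
    · exact (min_le_left _ _).trans_lt (by linarith)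
    · exact (min_le_right _ _).trans_lt (by linarith)
  have hA1 : -1 < cA := by linarith
  have hconA := hA cA hA1 a1 a2
  obtain ⟨h0, -, e0⟩ := NegAux.cech_eq pFace cA hA1 (by linarith)
  have h15 : (((15 : ℤ) : ℝ) : EReal) = 15 := by norm_cast
  by_contra hcon
  push Not at hcon
  have key : ∀ (c : ℝ) (hc : -1 < c), cA < c → c < 1 → ConnAtLeast 15 (Geo (capK 3 c hc)) := by
    intro c hc hAc hc1
    obtain ⟨h0', hpi', e0'⟩ := NegAux.cech_eq pFace c hc hc1
    have h1 : Real.arccos (-cA) < Real.arccos (-c) :=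
      Real.arccos_lt_arccos (by linarith) (by linarith) (by linarith)
    have h2 := hcon (Real.arccos (-cA)) (Real.arccos (-c)) h0 h0' h1 hpi'
    rw [e0, e0'] at h2
    by_contra h3
    have h4 : conn (Geo (capK 3 c hc)) < 15 := by
      rw [← h15]
      exact lt_of_not_ge fun h5 => h3 (NegAux.of_le_conn h5)
    have h5 := h2 h4
    have h6 := NegAux.le_conn hconA
    rw [h15] at h6
    exact absurd h6 (not_le.2 h5)
  obtain ⟨cm, cp, hm, hp, h1, h2, h3, h4, h5⟩ := hB cA a3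
  exact h5 ⟨NegAux.connAtLeast_mono (key cm hm h1 (by linarith)) (by norm_num), key cp hp (by linarith) h4⟩

end Pool.Agent.Results.MP_aafd8a_gt.Disproof
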