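import Pool.Agent.Lib.MP_aafd8a_gt.Crd
import Pool.Agent.Lib.MP_aafd8a_gt.Cont
import Pool.Agent.Lib.MP_aafd8a_gt.Cpt
import Pool.Agent.Lib.MP_aafd8a_gt.Hom
import Pool.Agent.Lib.MP_aafd8a_gt.Mk
import Pool.Agent.Lib.MP_aafd8a_gt.Kuhn
import Pool.Agent.Lib.MP_aafd8a_gt.Net
import Pool.Agent.Lib.MP_aafd8a_gt.Cube
import Pool.Agent.Lib.MP_aafd8a_gt.Face
import Pool.Agent.Lib.BorsukUlam.Alg
import Pool.Agent.Lib.BorsukUlam.Sd
import Pool.Agent.Lib.BorsukUlam.Base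
import Pool.Agent.Lib.BorsukUlam.Small
import Pool.Agent.Lib.BorsukUlam.Desc
import Pool.Agent.Lib.BorsukUlam.Lab
import Pool.Agent.Lib.BorsukUlam.BU
import Pool.Agent.Lib.MP_aafd8a_gt.Lin
import Pool.Agent.Lib.MP_aafd8a_gt.Cut
import Pool.Agent.Lib.MP_aafd8a_gt.Fil
import Pool.Agent.Lib.MP_aafd8a_gt.Hemi
import Pool.Agent.Lib.MP_aafd8a_gt.Null
import Pool.Agent.Lib.MP_aafd8a_gt.Pr
import Pool.Agent.Lib.MP_aafd8a_gt.Sub
import Pool.Agent.Lib.MP_aafd8a_gt.Shrink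
import Pool.Agent.Lib.MP_aafd8a_gt.Welch
import Pool.Agent.Lib.MP_aafd8a_gt.Mom
import Pool.Agent.Lib.MP_aafd8a_gt.Mo
import Pool.Agent.Lib.MP_aafd8a_gt.Dim
import Pool.Agent.Lib.MP_aafd8a_gt.Upper
import Pool.Agent.Lib.MP_aafd8a_gt.Pt
import Pool.Agent.Lib.MP_aafd8a_gt.StepD
import Pool.Agent.Lib.MP_aafd8a_gt.Down
import Pool.Agent.Lib.MP_aafd8a_gt.Lag
import Pool.Agent.Lib.MP_aafd8a_gt.Eig
import Pool.Agent.Lib.MP_aafd8a_gt.Near
import Pool.Agent.Lib.MP_aafd8a_gt.Lim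
import Pool.Agent.Lib.MP_aafd8a_gt.Fin
import Pool.Agent.Lib.MP_aafd8a_gt.GenV
import Pool.Agent.Lib.MP_aafd8a_gt.NH
import Pool.Agent.Lib.MP_aafd8a_gt.Sect
import Pool.Agent.Lib.MP_aafd8a_gt.Low
import Pool.Agent.Lib.MP_aafd8a_gt.Exact

/-!
# Problem MP_aafd8a_gt: the exact connectivity of the Cech complexes of spheres just past `π / 2`

For `n ≥ 1` and `π / 2 < r ≤ arccos (-1 / (n + 1))` the connectivity of the Cech complex of radius `r` of the `n`-sphere is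
exactly `n (n + 5) / 2 - 1`.
-/

set_option autoImplicit false

namespace Pool.Agent.Results.MP_aafd8a_gt.Exact

open Pool.Agent.MPaafd8a

private theorem arc {n : ℕ} (hn : 1 ≤ n) {r : ℝ} (h1 : Real.pi / 2 < r) (h3 : r ≤ Real.arccos (-(1 / ((n : ℝ) + 1)))) :
    r < Real.pi ∧ -Real.cos r ≤ 1 / ((n : ℝ) + 1) := by
  have hp := Real.pi_pos
  have hn1 : (1 : ℝ) ≤ n := by exact_mod_cast hn
  have e0 : (0 : ℝ) < 1 / ((n : ℝ) + 1) := by positivity
  have e1 : 1 / ((n : ℝ) + 1) < 1 := by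
    rw [div_lt_one (by positivity)]
    linarith
  have e2 : Real.cos (Real.arccos (-(1 / ((n : ℝ) + 1)))) ≤ Real.cos r :=
    Real.cos_le_cos_of_nonneg_of_le_pi (by linarith) (Real.arccos_le_pi _) h3
  rw [Real.cos_arccos (by linarith) (by linarith)] at e2
  refine ⟨lt_of_le_of_lt h3 (lt_of_le_of_ne (Real.arccos_le_pi _) fun h => ?_), by linarith⟩
  have := Real.arccos_eq_pi.1 h
  linarith

theorem result (n : ℕ) (hn : 1 ≤ n) (r : ℝ) (h0 : 0 < r) (h1 : Real.pi / 2 < r)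
    (h2 : r ≤ Real.arccos (-(1 / ((n : ℝ) + 1)))) :
    conn (Geo (cech n r h0)) = (((n : ℝ) * ((n : ℝ) + 5) / 2 - 1 : ℝ) : EReal) := by
  have hHom := pHom pCrd pCon pCpt
  have hMk := pMk pCon
  have hBU : BU.SBU := BU.pBU BU.pAlg (BU.pSmall (BU.pSd BU.pAlg) (BU.pBase BU.pAlg)) (BU.pDesc BU.pAlg) BU.pLab
  have hCut := pCut pCrd pCpt hMk
  have hFil := pFil (pLin pCrd pCon pCpt) hCut
  have hPr := pPr hFil pHemi pNul
  have hSub := pSub pCrd pCon pCpt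
  have hMom := pMom pWelch
  have hMo := pMo
  have hUpper := pUpper hBU pCrd pCpt hMom hMo pDim hPr
  have hStepD := pStepD pCrd pCpt hHom hMk pNet hCut hSub hMom hMo pPt
  have hDown := pDown hSub hStepD
  have hNear := pNear (pEig pLag)
  have hFin := pFin hMo (pLim pLag)
  have hNH := pNH pKuhn pGenV
  have hSect := pSect pCrd pCpt hHom hMk pNet hCut hSub hMom hMo pDim hNear hFin hNH
  have hLow := pLow hSub (pShrink pCpt) hDown hSect pCube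
  have hExact : SExact := pExact pFace hUpper hLow
  obtain ⟨h4, h5⟩ := arc hn h1 h2
  exact hExact n hn r h0 h1 h4 h5

end Pool.Agent.Results.MP_aafd8a_gt.Exact
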