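import Pool.Agent.Lib.MP_aafd8a_gt.Crd
import Pool.Agent.Lib.MP_aafd8a_gt.Cont
import Pool.Agent.Lib.MP_aafd8a_gt.Cpt
import Pool.Agent.Lib.MP_aafd8a_gt.Hom
import Pool.Agent.Lib.MP_aafd8a_gt.Mk
import Pool.Agent.Lib.MP_aafd8a_gt.Kuhn
import Pool.Agent.Lib.MP_aafd8a_gt.App
import Pool.Agent.Lib.MP_aafd8a_gt.Lay
import Pool.Agent.Lib.MP_aafd8a_gt.Gen
import Pool.Agent.Lib.MP_aafd8a_gt.Mar
import Pool.Agent.Lib.MP_aafd8a_gt.Pth
import Pool.Agent.Lib.MP_aafd8a_gt.Net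
import Pool.Agent.Lib.MP_aafd8a_gt.Sec
import Pool.Agent.Lib.MP_aafd8a_gt.Vp
import Pool.Agent.Lib.MP_aafd8a_gt.Start
import Pool.Agent.Lib.MP_aafd8a_gt.Move
import Pool.Agent.Lib.MP_aafd8a_gt.Cube
import Pool.Agent.Lib.MP_aafd8a_gt.Face
import Pool.Agent.Lib.MP_aafd8a_gt.Cov
import Pool.Agent.Lib.MP_aafd8a_gt.Main
import Pool.Agent.Lib.BorsukUlam.Alg
import Pool.Agent.Lib.BorsukUlam.Sd
import Pool.Agent.Lib.BorsukUlam.Base
import Pool.Agent.Lib.BorsukUlam.Small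
import Pool.Agent.Lib.BorsukUlam.Desc
import Pool.Agent.Lib.BorsukUlam.Lab
import Pool.Agent.Lib.BorsukUlam.BU
import Pool.Agent.Lib.MP_aafd8a_gt.Lin
import Pool.Agent.Lib.MP_aafd8a_gt.Cut
import Pool.Agent.Lib.MP_aafd8a_gt.Fil
import Pool.Agent.Lib.MP_aafd8a_gt.Hemi
import Pool.Agent.Lib.MP_aafd8a_gt.Null
import Pool.Agent.Lib.MP_aafd8a_gt.Pr
import Pool.Agent.Lib.MP_aafd8a_gt.Col
import Pool.Agent.Lib.MP_aafd8a_gt.Sml
import Pool.Agent.Lib.MP_aafd8a_gt.CMon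
import Pool.Agent.Lib.MP_aafd8a_gt.Mono

/-!
# Problem MP_aafd8a_gt: monotonicity of the connectivity of the Cech complexes of spheres for most pairs of radii

For `n ≥ 1` and `0 < r < r' < π` with `π / 2 < r'`, and `r ≤ π / 2` or `π - r' ≤ (π - r) / 2`, the connectivity of the Cech
complex of radius `r'` of the `n`-sphere is at least the connectivity of the Cech complex of radius `r` plus `n + 1`.
-/

set_option autoImplicit false

namespace Pool.Agent.Results.MP_aafd8a_gt.Monotone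

open Pool.Agent.MPaafd8a

theorem result (n : ℕ) (hn : 1 ≤ n) (r r' : ℝ) (h0 : 0 < r) (h0' : 0 < r') (h1 : r < r') (h2 : r' < Real.pi)
    (h3 : Real.pi / 2 < r') (h4 : r ≤ Real.pi / 2 ∨ Real.pi - r' ≤ (Real.pi - r) / 2) :
    conn (Geo (cech n r h0)) + (((n : ℝ) + 1 : ℝ) : EReal) ≤ conn (Geo (cech n r' h0')) := by
  have hHom := pHom pCrd pCon pCpt
  have hMk := pMk pCon
  have hSt := pStart hHom hMk (pApp pCrd pKuhn) pNet (pSec pLay pGen) pVp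
  have hMv := pMove hHom hMk pPth
  have hMain : SMain := pMain hSt hMv pCube pFace pCov pMar
  have hBU : BU.SBU := BU.pBU BU.pAlg (BU.pSmall (BU.pSd BU.pAlg) (BU.pBase BU.pAlg)) (BU.pDesc BU.pAlg) BU.pLab
  have hFil := pFil (pLin pCrd pCon pCpt) (pCut pCrd pCpt hMk)
  have hPr := pPr hFil pHemi pNul
  exact pMono hMain pFace hPr (pCol hBU pCrd pCpt) (pSml hBU pCrd pCpt) pCMon n hn r r' h0 h0' h1 h2 h3 h4

end Pool.Agent.Results.MP_aafd8a_gt.Monotone
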